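import Mathlib
import Pool.Agent.H55.Ample

namespace Pool.Agent.Results.MP_bbacab_nt.AllK

/-- The number of recursive divisors: `a n = 1 + ∑ a m` over the proper divisors `m` of `n`. -/
def a (n : ℕ) : ℕ := 1 + ∑ m ∈ n.properDivisors.attach, a m.1
  termination_by n
  decreasing_by exact (Nat.mem_properDivisors.1 m.2).2

/-- For every `k ≥ 1` there is an ample number coprime to the product of the first `k` primes. -/
theorem result : ∀ k : ℕ, 1 ≤ k → ∃ n : ℕ, 0 < n ∧ n < a n ∧
    Nat.gcd n (∏ i ∈ Finset.range k, Nat.nth Nat.Prime i) = 1 := by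
  intro k _
  have ha : ∀ n, 0 < n → a n = 1 + ∑ m ∈ n.properDivisors, a m := by
    intro n _
    rw [a, Finset.sum_attach n.properDivisors a]
  obtain ⟨n, hn, h1, h2⟩ := Pool.Agent.H55.Ample.main a ha (Nat.nth Nat.Prime k)
  refine ⟨n, hn, h1, Nat.Coprime.prod_right fun i hi => ?_⟩
  have hp := Nat.prime_nth_prime i
  refine ((Nat.Prime.coprime_iff_not_dvd hp).2 fun hd => ?_).symm
  have h3 := h2 _ hp hd
  have h4 : Nat.nth Nat.Prime i < Nat.nth Nat.Prime k :=
    (Nat.nth_lt_nth Nat.infinite_setOfPred_prime).2 (Finset.mem_range.1 hi)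
  omega

end Pool.Agent.Results.MP_bbacab_nt.AllK
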